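import Pool.Agent.Helper70.OB.Goals

/-!
The energy identity (packet OB-EN).
-/

open MeasureTheory Set Metric Filter
open scoped ENNReal Topology
open Pool.Agent.Helper70.OB

namespace Pool.Agent.Helper50.OB

/-- products `V_i P_j`, `i + j = k - 1`, `i ≥ 1`, are `O(r)` -/
lemma prod_bound {k : ℕ} {V P : ℕ → ℝ → ℝ} {C : ℝ} (hC : 0 < C)
    (hB : ∀ r : ℝ, 0 < r → r ≤ 1 →
      (∀ j < k, |V j r| ≤ C / r ^ (2 * j - 1)) ∧
      (∀ j, j + 1 < k → |P j r| ≤ C * r ^ (2 * k - 2 - 2 * j)))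
    {i j : ℕ} (hi : 1 ≤ i) (hj : j + 1 < k) (hij : i + j = k - 1) {r : ℝ} (hr : 0 < r)
    (hr1 : r ≤ 1) : |V i r * P j r| ≤ C ^ 2 * r := by
  obtain ⟨h1, h2⟩ := hB r hr hr1
  have h3 := h1 i (by omega)
  have h4 := h2 j hj
  rw [abs_mul]
  calc |V i r| * |P j r| ≤ (C / r ^ (2 * i - 1)) * (C * r ^ (2 * k - 2 - 2 * j)) :=
        mul_le_mul h3 h4 (abs_nonneg _) (by positivity)
    _ = C ^ 2 * r := by
        have e : 2 * k - 2 - 2 * j = (2 * i - 1) + 1 := by omega
        rw [e, pow_succ]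
        field_simp

/-- the part of the boundary term which depends on the parity of `k` -/
lemma parity {k : ℕ} {V P : ℕ → ℝ → ℝ} {C : ℝ} (hk : 2 ≤ k) (hC : 0 < C)
    (hB : ∀ r : ℝ, 0 < r → r ≤ 1 →
      (∀ j < k, |V j r| ≤ C / r ^ (2 * j - 1)) ∧
      (∀ j, j + 1 < k → |P j r| ≤ C * r ^ (2 * k - 2 - 2 * j)))
    (bV : ∀ j < k, ContinuousOn (V j) (Ioi 0))
    (bD : ∀ j, j + 1 < k → ∀ r : ℝ, 0 < r →
      HasDerivAt (V j) (P j r / r ^ (2 * k - 2)) r ∧
      HasDerivAt (P j) (r ^ (2 * k - 2) * (V j r - V (j + 1) r)) r)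
    {a : ℝ} (h0 : ∀ j, j + 1 < k → V j a = 0 ∧ P j a = 0) {l : ℕ} (hl : k = 2 * l ∨ k = 2 * l + 1) :
    ∃ Er S : ℝ → ℝ,
      (∀ r : ℝ, 0 < r → HasDerivAt Er (S r - r ^ (2 * k - 2) * (V l r * V (k - l) r)) r) ∧
      (∀ r : ℝ, 0 < r → 0 ≤ S r) ∧ ContinuousOn S (Ioi 0) ∧ Er a = 0 ∧
      (∀ r : ℝ, 0 < r → r ≤ 1 → |Er r| ≤ C ^ 2 * r) := by
  rcases hl with hl | hl
  · refine ⟨fun _ => 0, fun r => r ^ (2 * k - 2) * (V l r * V l r), fun r hr => ?_,
      fun r hr => mul_nonneg (pow_nonneg hr.le _) (mul_self_nonneg _), ?_, rfl, fun r hr _ => ?_⟩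
    · have e : k - l = l := by omega
      rw [e, sub_self]
      exact hasDerivAt_const r 0
    · exact (continuousOn_id.pow _).mul ((bV l (by omega)).mul (bV l (by omega)))
    · rw [abs_zero]
      positivity
  · have hl1 : l + 1 < k := by omega
    refine ⟨fun r => V l r * P l r,
      fun r => P l r * P l r / r ^ (2 * k - 2) + r ^ (2 * k - 2) * (V l r * V l r), fun r hr => ?_,
      fun r hr => add_nonneg (div_nonneg (mul_self_nonneg _) (pow_nonneg hr.le _))
        (mul_nonneg (pow_nonneg hr.le _) (mul_self_nonneg _)), ?_, ?_, fun r hr hr1 => ?_⟩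
    · obtain ⟨d1, d2⟩ := bD l hl1 r hr
      have e : k - l = l + 1 := by omega
      rw [e]
      refine (d1.mul d2).congr_deriv ?_
      ring
    · have cP : ContinuousOn (P l) (Ioi 0) := fun r hr => (bD l hl1 r hr).2.continuousAt.continuousWithinAt
      refine ((cP.mul cP).div (continuousOn_id.pow _) fun r hr => ?_).add
        ((continuousOn_id.pow _).mul ((bV l (by omega)).mul (bV l (by omega))))
      exact pow_ne_zero _ (ne_of_gt hr)
    · change V l a * P l a = 0
      rw [(h0 l hl1).1, zero_mul]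
    · exact prod_bound hC hB (by omega) hl1 (by omega) hr hr1

/-- The energy identity. -/
theorem en : BAS → BND → EN := by
  intro bas bnd k V P m hC a ha h0 hV0 hint r₀ hr0 hra
  obtain ⟨bV, bD, bK, -⟩ := bas k V P m hC
  obtain ⟨⟨C, hCpos, hB⟩, hPk⟩ := bnd k V P m hC
  have hk : 2 ≤ k := hC.two_le
  obtain ⟨l, hl⟩ := Nat.even_or_odd' k
  have hl1 : 1 ≤ l := by omega
  obtain ⟨Er, S, dE, S0, cS, Ea, bE⟩ := parity hk hCpos hB bV bD h0 hl
  set N := 2 * k - 2 with hN
  -- continuity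
  have cV0 : ContinuousOn (V 0) (Ioi 0) := bV 0 (by omega)
  have cVk : ContinuousOn (V (k - 1)) (Ioi 0) := bV (k - 1) (by omega)
  have cP : ∀ j, j + 1 < k → ContinuousOn (P j) (Ioi 0) := fun j hj r hr =>
    (bD j hj r hr).2.continuousAt.continuousWithinAt
  have cpow : ContinuousOn (fun r : ℝ => r ^ N) (Ioi 0) := (continuous_pow N).continuousOn
  -- the function `Q`
  set Q : ℝ → ℝ := fun r => ∫ u in (0 : ℝ)..r, u ^ N * (V (k - 1) u + 1) with hQ
  have iQ : ∀ r : ℝ, 0 < r → IntervalIntegrable (fun u => u ^ N * (V (k - 1) u + 1)) volume 0 r := by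
    intro r hr
    have h1 := hC.int (k - 1) (by omega) r hr
    have h2 : IntervalIntegrable (fun u : ℝ => u ^ N) volume 0 r :=
      (continuous_pow N).intervalIntegrable _ _
    refine (h1.add h2).congr fun u _ => ?_
    change u ^ N * V (k - 1) u + u ^ N = u ^ N * (V (k - 1) u + 1)
    ring
  have dQ : ∀ r : ℝ, 0 < r → HasDerivAt Q (r ^ N * (V (k - 1) r + 1)) r := by
    intro r hr
    have hc : ContinuousOn (fun u => u ^ N * (V (k - 1) u + 1)) (Ioi 0) :=
      cpow.mul (cVk.add continuousOn_const)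
    exact intervalIntegral.integral_hasDerivAt_right (iQ r hr)
      (hc.stronglyMeasurableAtFilter isOpen_Ioi r hr) (hc.continuousAt (Ioi_mem_nhds hr))
  have topQ : ∀ r : ℝ, 0 < r → P (k - 1) r = Q r - m r := fun r hr => hC.top r hr
  -- the boundary function
  set Bt : ℕ → ℝ → ℝ := fun t r => V (t + 1) r * P (k - 2 - t) r - V (k - 2 - t) r * P (t + 1) r
    with hBt
  set Phi : ℝ → ℝ := fun r => (V 0 r * Q r - P 0 r * V (k - 1) r) +
    (∑ t ∈ Finset.range (l - 1), Bt t r + Er r) with hPhi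
  set Dm : ℝ → ℝ := fun r => P 0 r / r ^ N * m r with hDm
  set F' : ℝ → ℝ := fun r => Dm r + r ^ N * V 0 r + S r with hF'
  have dPhi : ∀ r : ℝ, 0 < r → ContinuousAt m r → HasDerivAt Phi (F' r) r := by
    intro r hr hm
    obtain ⟨dV0, dP0⟩ := bD 0 (by omega) r hr
    have dVk := bK r hr hm
    have dB : ∀ t ∈ Finset.range (l - 1), HasDerivAt (Bt t)
        (r ^ N * (V (t + 1 + 1) r * V (k - (t + 1 + 1)) r - V (t + 1) r * V (k - (t + 1)) r)) r := by
      intro t ht
      have ht' := Finset.mem_range.1 ht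
      obtain ⟨d1, d2⟩ := bD (t + 1) (by omega) r hr
      obtain ⟨d3, d4⟩ := bD (k - 2 - t) (by omega) r hr
      have e1 : k - 2 - t + 1 = k - (t + 1) := by omega
      have e2 : k - 2 - t = k - (t + 1 + 1) := by omega
      refine ((d1.mul d4).sub (d3.mul d2)).congr_deriv ?_
      rw [e1, e2]
      ring
    have dS := HasDerivAt.sum (u := Finset.range (l - 1)) dB
    have dsum : HasDerivAt (fun x => ∑ t ∈ Finset.range (l - 1), Bt t x)
        (r ^ N * (V l r * V (k - l) r - V 1 r * V (k - 1) r)) r := by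
      have e3 : (fun x => ∑ t ∈ Finset.range (l - 1), Bt t x) =
          ∑ t ∈ Finset.range (l - 1), Bt t := by
        ext x
        rw [Finset.sum_apply]
      rw [e3]
      refine dS.congr_deriv ?_
      rw [← Finset.mul_sum, Finset.sum_range_sub (fun t => V (t + 1) r * V (k - (t + 1)) r) (l - 1)]
      rw [Nat.sub_add_cancel hl1, zero_add]
    refine (((dV0.mul (dQ r hr)).sub (dP0.mul dVk)).add (dsum.add (dE r hr))).congr_deriv ?_
    simp only [hF', hDm]
    rw [topQ r hr, zero_add]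
    ring
  have Phia : Phi a = 0 := by
    simp only [hPhi]
    obtain ⟨h1, h2⟩ := h0 0 (by omega)
    rw [h1, h2, Ea]
    have : ∑ t ∈ Finset.range (l - 1), Bt t a = 0 := by
      refine Finset.sum_eq_zero fun t ht => ?_
      have ht' := Finset.mem_range.1 ht
      simp only [hBt]
      rw [(h0 (t + 1) (by omega)).1, (h0 (k - 2 - t) (by omega)).1]
      ring
    rw [this]
    ring
  have cPhi : ContinuousOn Phi (Ioi 0) := by
    have c1 : ContinuousOn Q (Ioi 0) := fun r hr => (dQ r hr).continuousAt.continuousWithinAt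
    have c2 : ContinuousOn Er (Ioi 0) := fun r hr => (dE r hr).continuousAt.continuousWithinAt
    refine ((cV0.mul c1).sub ((cP 0 (by omega)).mul cVk)).add
      ((continuousOn_finsetSum _ fun t ht => ?_).add c2)
    have ht' := Finset.mem_range.1 ht
    exact ((bV (t + 1) (by omega)).mul (cP (k - 2 - t) (by omega))).sub
      ((bV (k - 2 - t) (by omega)).mul (cP (t + 1) (by omega)))
  -- the positive part
  set G : ℝ → ℝ := fun r => r ^ N * V 0 r + S r with hG
  have cG : ContinuousOn G (Ioi 0) := (cpow.mul cV0).add cS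
  have G0 : ∀ r, 0 < r → r ≤ a → 0 ≤ G r := by
    intro r hr hra
    refine add_nonneg (mul_nonneg (pow_nonneg hr.le _) ?_) (S0 r hr)
    rcases hra.eq_or_lt with h | h
    · rw [h, (h0 0 (by omega)).1]
    · exact hV0 r hr h
  have cR : ContinuousOn (fun r => P 0 r / r ^ N) (Ioi 0) :=
    (cP 0 (by omega)).div cpow fun r hr => pow_ne_zero _ (ne_of_gt hr)
  have iD : ∀ δ : ℝ, 0 < δ → δ ≤ a → IntervalIntegrable Dm volume δ a := by
    intro δ hδ hδa
    have h1 : IntervalIntegrable m volume δ a := hC.mono.intervalIntegrable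
    refine h1.continuousOn_mul (cR.mono ?_)
    rw [uIcc_of_le hδa]
    exact fun x hx => lt_of_lt_of_le hδ hx.1
  have iG : ∀ δ : ℝ, 0 < δ → δ ≤ a → IntervalIntegrable G volume δ a := by
    intro δ hδ hδa
    refine (cG.mono ?_).intervalIntegrable
    rw [uIcc_of_le hδa]
    exact fun x hx => lt_of_lt_of_le hδ hx.1
  have key : ∀ δ : ℝ, 0 < δ → δ ≤ a → (∫ r in δ..a, Dm r) + ∫ r in δ..a, G r = -Phi δ := by
    intro δ hδ hδa
    have hcount : {x : ℝ | ¬ ContinuousAt m x}.Countable := hC.mono.countable_not_continuousAt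
    have h1 := MeasureTheory.integral_eq_of_hasDerivAt_off_countable_of_le Phi (fun r => Dm r + G r)
      hδa hcount (cPhi.mono fun x hx => lt_of_lt_of_le hδ hx.1)
      (fun x hx => by
        have hx0 : 0 < x := hδ.trans hx.1.1
        have hxm : ContinuousAt m x := by
          by_contra h
          exact hx.2 h
        refine (dPhi x hx0 hxm).congr_deriv ?_
        simp only [hF', hG]
        ring)
      ((iD δ hδ hδa).add (iG δ hδ hδa))
    rw [intervalIntegral.integral_add (iD δ hδ hδa) (iG δ hδ hδa), Phia, zero_sub] at h1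
    exact h1
  -- bounds near zero
  obtain ⟨M₀, hM₀⟩ := hC.mbdd
  set M := max M₀ 0 with hM
  have hmM : ∀ r : ℝ, |m r| ≤ M := fun r => by
    rw [abs_of_nonneg (hC.nonneg r)]
    exact (hM₀ r).trans (le_max_left _ _)
  have M0 : 0 ≤ M := le_max_right _ _
  have hDb : ∀ r : ℝ, 0 < r → r ≤ 1 → |Dm r| ≤ C * M := by
    intro r hr hr1
    simp only [hDm]
    rw [abs_mul, abs_div, abs_of_pos (pow_pos hr N)]
    refine mul_le_mul ?_ (hmM r) (abs_nonneg _) hCpos.le
    rw [div_le_iff₀ (pow_pos hr N)]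
    have := (hB r hr hr1).2 0 (by omega)
    simpa [hN] using this
  set b₁ := min a 1 with hb₁
  have b₁0 : 0 < b₁ := lt_min ha one_pos
  have iD0 : ∀ δ : ℝ, 0 < δ → δ ≤ b₁ → IntervalIntegrable Dm volume 0 δ := by
    intro δ hδ hδb
    rw [intervalIntegrable_iff_integrableOn_Ioc_of_le hδ.le]
    have hfin : volume (Ioc 0 δ) < ∞ := by
      rw [Real.volume_Ioc]
      exact ENNReal.ofReal_lt_top
    refine MeasureTheory.IntegrableOn.of_bound hfin ?_ (C * M) ?_
    · have h1 : AEStronglyMeasurable (fun r => P 0 r / r ^ N) (volume.restrict (Ioc 0 δ)) :=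
        (cR.mono fun x hx => hx.1).aestronglyMeasurable measurableSet_Ioc
      exact h1.mul hC.mono.measurable.aestronglyMeasurable
    · rw [ae_restrict_iff' measurableSet_Ioc]
      refine Filter.Eventually.of_forall fun x hx => ?_
      rw [Real.norm_eq_abs]
      exact hDb x hx.1 (hx.2.trans (hδb.trans (min_le_right _ _)))
  have small : ∀ δ : ℝ, 0 < δ → δ ≤ b₁ → -(∫ r in δ..a, Dm r) ≤ C * M * δ := by
    intro δ hδ hδb
    have h1 := intervalIntegral.integral_add_adjacent_intervals (iD0 δ hδ hδb)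
      (iD δ hδ (hδb.trans (min_le_left _ _)))
    have h2 : ∫ r in (0 : ℝ)..a, Dm r = 0 := hint
    have h3 : ‖∫ r in (0 : ℝ)..δ, Dm r‖ ≤ C * M * |δ - 0| := by
      refine intervalIntegral.norm_integral_le_of_norm_le_const fun x hx => ?_
      rw [uIoc_of_le hδ.le] at hx
      rw [Real.norm_eq_abs]
      exact hDb x hx.1 (hx.2.trans (hδb.trans (min_le_right _ _)))
    rw [sub_zero, abs_of_pos hδ, Real.norm_eq_abs] at h3
    have h4 := le_abs_self (∫ r in (0 : ℝ)..δ, Dm r)
    linarith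
  have bPhi : ∀ δ : ℝ, 0 < δ → δ ≤ b₁ →
      -Phi δ ≤ C * |P (k - 1) δ + m δ| + (C ^ 2 + (l - 1 : ℕ) * (2 * C ^ 2) + C ^ 2) * δ := by
    intro δ hδ hδb
    have hδ1 : δ ≤ 1 := hδb.trans (min_le_right _ _)
    have e1 : Q δ = P (k - 1) δ + m δ := by rw [topQ δ hδ]; ring
    have a1 : |V 0 δ * Q δ| ≤ C * |P (k - 1) δ + m δ| := by
      rw [abs_mul, e1]
      refine mul_le_mul_of_nonneg_right ?_ (abs_nonneg _)
      have := (hB δ hδ hδ1).1 0 (by omega)
      simpa using this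
    have a2 : |V (k - 1) δ * P 0 δ| ≤ C ^ 2 * δ :=
      prod_bound hCpos hB (by omega) (by omega) (by omega) hδ hδ1
    have a3 : |∑ t ∈ Finset.range (l - 1), Bt t δ| ≤ (l - 1 : ℕ) * (2 * C ^ 2) * δ := by
      refine (Finset.abs_sum_le_sum_abs _ _).trans ?_
      calc ∑ t ∈ Finset.range (l - 1), |Bt t δ| ≤ ∑ t ∈ Finset.range (l - 1), 2 * C ^ 2 * δ := by
            refine Finset.sum_le_sum fun t ht => ?_
            have ht' := Finset.mem_range.1 ht
            have p1 := prod_bound hCpos hB (i := t + 1) (j := k - 2 - t) (by omega) (by omega)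
              (by omega) hδ hδ1
            have p2 := prod_bound hCpos hB (i := k - 2 - t) (j := t + 1) (by omega) (by omega)
              (by omega) hδ hδ1
            simp only [hBt]
            refine (abs_sub _ _).trans ?_
            linarith
        _ = _ := by
            rw [Finset.sum_const, Finset.card_range, nsmul_eq_mul]
            ring
    have a4 := bE δ hδ hδ1
    have e2 : -Phi δ = -(V 0 δ * Q δ) + V (k - 1) δ * P 0 δ -
        (∑ t ∈ Finset.range (l - 1), Bt t δ) - Er δ := by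
      simp only [hPhi]
      ring
    rw [e2]
    have c1 := neg_abs_le (V 0 δ * Q δ)
    have c2 := le_abs_self (V (k - 1) δ * P 0 δ)
    have c3 := neg_abs_le (∑ t ∈ Finset.range (l - 1), Bt t δ)
    have c4 := neg_abs_le (Er δ)
    have e3 : (C ^ 2 + (l - 1 : ℕ) * (2 * C ^ 2) + C ^ 2) * δ =
      C ^ 2 * δ + (l - 1 : ℕ) * (2 * C ^ 2) * δ + C ^ 2 * δ := by ring
    rw [e3]
    linarith
  -- conclusion
  by_contra hne
  have hpos : 0 < V 0 r₀ := lt_of_le_of_ne (hV0 r₀ hr0 hra) (Ne.symm hne)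
  have hc1 : 0 < ∫ r in (r₀ / 2)..a, G r := by
    refine intervalIntegral.integral_pos (by linarith) (cG.mono fun x hx => ?_) (fun x hx => ?_)
      ⟨r₀, ⟨by linarith, hra.le⟩, ?_⟩
    · exact lt_of_lt_of_le (by linarith : (0 : ℝ) < r₀ / 2) hx.1
    · exact G0 x (by linarith [hx.1]) hx.2
    · exact add_pos_of_pos_of_nonneg (mul_pos (pow_pos hr0 _) hpos) (S0 r₀ hr0)
  have hup : ∀ δ : ℝ, 0 < δ → δ ≤ b₁ → δ ≤ r₀ / 2 → ∫ r in (r₀ / 2)..a, G r ≤
      C * |P (k - 1) δ + m δ| +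
        ((C ^ 2 + (l - 1 : ℕ) * (2 * C ^ 2) + C ^ 2) * δ + C * M * δ) := by
    intro δ hδ hδb hδr
    have hδa : δ ≤ a := hδb.trans (min_le_left _ _)
    have h1 := key δ hδ hδa
    have h2 := small δ hδ hδb
    have h3 := bPhi δ hδ hδb
    have h4 : IntervalIntegrable G volume δ (r₀ / 2) := by
      refine (cG.mono ?_).intervalIntegrable
      rw [uIcc_of_le hδr]
      exact fun x hx => lt_of_lt_of_le hδ hx.1
    have h5 := intervalIntegral.integral_add_adjacent_intervals h4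
      (iG (r₀ / 2) (by linarith) (by linarith))
    have h6 : 0 ≤ ∫ r in δ..(r₀ / 2), G r :=
      intervalIntegral.integral_nonneg hδr fun x hx => G0 x (lt_of_lt_of_le hδ hx.1)
        (hx.2.trans (by linarith))
    linarith
  have hlim : Tendsto (fun δ : ℝ => C * |P (k - 1) δ + m δ| +
      ((C ^ 2 + (l - 1 : ℕ) * (2 * C ^ 2) + C ^ 2) * δ + C * M * δ)) (𝓝[>] 0) (𝓝 0) := by
    have t1 : Tendsto (fun δ : ℝ => C * |P (k - 1) δ + m δ|) (𝓝[>] 0) (𝓝 (C * |0 + 0|)) :=
      ((hPk.add hC.zero).abs).const_mul C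
    have t2 : Tendsto (fun δ : ℝ => (C ^ 2 + (l - 1 : ℕ) * (2 * C ^ 2) + C ^ 2) * δ + C * M * δ)
        (𝓝[>] 0) (𝓝 ((C ^ 2 + (l - 1 : ℕ) * (2 * C ^ 2) + C ^ 2) * 0 + C * M * 0)) := by
      refine Tendsto.mono_left ?_ nhdsWithin_le_nhds
      exact (Continuous.tendsto (by fun_prop) 0)
    have := t1.add t2
    simpa using this
  have hev : ∀ᶠ δ in 𝓝[>] (0 : ℝ), ∫ r in (r₀ / 2)..a, G r ≤ C * |P (k - 1) δ + m δ| +
      ((C ^ 2 + (l - 1 : ℕ) * (2 * C ^ 2) + C ^ 2) * δ + C * M * δ) := by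
    have hmin : (0 : ℝ) < min b₁ (r₀ / 2) := lt_min b₁0 (by linarith)
    filter_upwards [Ioo_mem_nhdsGT hmin] with δ hδ
    exact hup δ hδ.1 (hδ.2.le.trans (min_le_left _ _)) (hδ.2.le.trans (min_le_right _ _))
  have := ge_of_tendsto hlim hev
  linarith

end Pool.Agent.Helper50.OB
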